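import Pool.Agent.H436.FP.Gen
import Pool.Graph.R_pool_sql_team_seeded_63374d34.N230.FC.Fin

set_option autoImplicit false

/-! # Potential density of fibre products of conic bundles over curves and over other bases

Let `k` be an algebraically closed field of characteristic zero, for instance the field of algebraic
numbers, `B` a variety over `k` with the function field `F`, and `X → B` the family of the varieties

`w_i² = a_i(t) y_i² + f_i(t)`,  `i = 1, ..., m`,

where `a_i`, `f_i` are nonzero polynomials in `t_1, ..., t_n` whose coefficients are arbitrary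
rational functions on `B`. Each `t_j` occurs in at most one of `a_i` and `f_i`, for every `i`, say
with the degree `d_ij`, in at most three of the equations, and `∑_i ⌈d_ij / 2⌉ ≤ 4`. So the nonzero
degrees of the equations in `t_j` can be `8`, or `6, 2`, or `4, 4`, or `4, 2, 2`.

We show, for all varieties `X'` with dominant rational maps `X ⇢ X' ⇢ B` over `B` (for instance
`X' = X`), that `X'` is dominated, over `B`, by the product of `B` with an affine space, and that
`X'` is potentially dense if and only if `B` is, if

(1) `B` is a curve, of any genus; or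

(2) `B` is of any dimension, and `X → B` has a rational section which lies over a section `c` of
`B × 𝔸ⁿ → B` with `h(c) ≠ 0`, where `h ≠ 0` is a polynomial over `F` which depends on `X` only.

Here potentially dense means that the points with coordinates in some finitely generated subfield of
`k` are Zariski dense; for `k` the field of algebraic numbers the finitely generated subfields are
the number fields.

A variety dominated by `B × 𝔸ᴺ` over `B` is special in the sense of Campana if and only if `B` is
special. So the conjecture (special if and only if potentially dense) for `X'` is equivalent to the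
conjecture for `B`, and for curves `B` it is known: `X'` is special and potentially dense if the
genus of `B` is zero or one, and neither special nor potentially dense if the genus is at least two.
For `B` of genus one these varieties are not rationally connected.
-/

open MvPolynomial

namespace Pool.Agent.Results.MP_9410e4_ag.FibreProductsOverCurves

section defs

variable {k : Type} [Field k] {K : Type} [Field K] [Algebra k K] {M : ℕ}

/-- `p` is a point, with coordinates in `k`, of the affine variety with the generic point `x`: it
satisfies all the equations over `k` which are satisfied by `x`. -/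
def IsPoint (x : Fin M → K) (p : Fin M → k) : Prop :=
  ∀ H : MvPolynomial (Fin M) k, aeval x H = 0 → eval p H = 0

/-- The points of the affine variety with the generic point `x` which have coordinates in some
finitely generated subfield of `k` are Zariski dense: for every polynomial `G` over `k` which does
not vanish on the variety there is such a point at which `G` does not vanish. This property is the
same for all varieties with the same function field. -/
def PotentiallyDense (k : Type) [Field k] {K : Type} [Field K] [Algebra k K] {M : ℕ}
    (x : Fin M → K) : Prop :=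
  ∃ T : Finset k, ∀ G : MvPolynomial (Fin M) k, aeval x G ≠ 0 →
    ∃ p : Fin M → k, (∀ i, p i ∈ Subfield.closure (T : Set k)) ∧ IsPoint x p ∧ eval p G ≠ 0

/-- The varieties `X'` with function field `E ≤ K` over `B`, where `y` is the generic point of `B`,
`F` the function field of `B` and `K` the function field of `X`, are dominated over `B` by the
product of `B` with an affine space, and they are potentially dense if and only if `B` is. -/
def SameDensity (k : Type) [Field k] {F : Type} [Field F] [Algebra k F] {M : ℕ} (y : Fin M → F)
    (K : Type) [Field K] [Algebra F K] : Prop :=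
  ∀ (E : Type) [Field E] [Algebra k E] [Algebra F E] [IsScalarTower k F E] (_ : E →ₐ[F] K),
    (∃ N, Nonempty (E →ₐ[F] FractionRing (MvPolynomial (Fin N) F))) ∧
    ∀ (M' : ℕ) (z : Fin M' → E), IntermediateField.adjoin k (Set.range z) = ⊤ →
      (PotentiallyDense k z ↔ PotentiallyDense k y)

/-- `K` is the function field of the variety `w_i² = a_i(t) y_i² + f_i(t)`, `i = 1, ..., m`, over
`F` (the coordinates `t` and `y` are algebraically independent, and `t`, `y`, `w` generate `K`). -/
def IsFunctionField (F : Type) [Field F] {n m : ℕ} (a f : Fin m → MvPolynomial (Fin n) F)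
    (K : Type) [Field K] [Algebra F K] : Prop :=
  ∃ (t : Fin n → K) (y w : Fin m → K), AlgebraicIndependent F (Sum.elim t y) ∧
    (∀ i, w i ^ 2 = aeval t (a i) * y i ^ 2 + aeval t (f i)) ∧
    IntermediateField.adjoin F (Set.range t ∪ (Set.range y ∪ Set.range w)) = ⊤

/-- For some `c` in `F^n` with `h(c) ≠ 0` all the conics `X² = a_i(c) Y² + f_i(c) W²` have points
over `F`. -/
def HasSplitPoint {F : Type} [Field F] {n m : ℕ} (a f : Fin m → MvPolynomial (Fin n) F)
    (h : MvPolynomial (Fin n) F) : Prop :=
  ∃ c : Fin n → F, eval c h ≠ 0 ∧ ∀ i, ∃ X Y W : F, ¬ (X = 0 ∧ Y = 0 ∧ W = 0) ∧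
    X ^ 2 = eval c (a i) * Y ^ 2 + eval c (f i) * W ^ 2

end defs

/-- **Fibre products of conic bundles over curves and other bases.** `F` is the function field, and
`u` the generic point, of the variety `B` over `k`. -/
theorem result (k : Type) [Field k] [IsAlgClosed k] [CharZero k] (F : Type) [Field F] [Algebra k F]
    {M : ℕ} (u : Fin M → F) (hu : IntermediateField.adjoin k (Set.range u) = ⊤) (n m : ℕ)
    (a f : Fin m → MvPolynomial (Fin n) F) (ha : ∀ i, a i ≠ 0) (hf : ∀ i, f i ≠ 0)
    -- `t_j` occurs in at most one of `a_i` and `f_i`
    (hdis : ∀ (j : Fin n) (i : Fin m), degreeOf j (a i) = 0 ∨ degreeOf j (f i) = 0)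
    -- `t_j` occurs in at most three of the equations
    (h3 : ∀ j : Fin n,
      (Finset.univ.filter fun i => degreeOf j (a i) + degreeOf j (f i) ≠ 0).card ≤ 3)
    -- the sum of the halves of the degrees in `t_j`, rounded up, is at most four
    (h4 : ∀ j : Fin n, ∑ i, (degreeOf j (a i) + degreeOf j (f i) + 1) / 2 ≤ 4)
    (K : Type) [Field K] [Algebra F K] (hK : IsFunctionField F a f K) :
    (Algebra.trdeg k F ≤ 1 → SameDensity k u K) ∧
    ∃ h : MvPolynomial (Fin n) F, h ≠ 0 ∧ (HasSplitPoint a f h → SameDensity k u K) := by
  have hcF : CharZero F := charZero_of_injective_algebraMap (algebraMap k F).injective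
  have key : Pool.Agent.H436.FP.Uni F K → SameDensity k u K := by
    intro hU E _ _ _ _ τ
    obtain ⟨N, ⟨σ⟩⟩ := Pool.Agent.H436.FP.of_uni hU
    exact ⟨⟨N, ⟨σ.comp τ⟩⟩, fun M' z hz => Pool.Agent.N230.FC.pd_iff hu hz (σ.comp τ)⟩
  have hT : Pool.Agent.H436.FP.Typ a f := by
    refine ⟨fun j i => ?_, h3, h4⟩
    rcases hdis j i with h | h
    · exact Or.inl fun h' => (mem_vars_iff_degreeOf_ne_zero.1 h') h
    · exact Or.inr fun h' => (mem_vars_iff_degreeOf_ne_zero.1 h') h
  obtain ⟨h, hh, h1⟩ := Pool.Agent.H436.FP.gen_uni ha hf hT
  refine ⟨fun htr => key ?_, h, hh, fun ⟨c, hc, hs⟩ => key (h1 c hc hs K hK)⟩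
  -- over a curve: the theorem of Tsen
  obtain ⟨A, hA⟩ : ∃ A, A = h * ∏ i, a i := ⟨_, rfl⟩
  have hA0 : A ≠ 0 := by
    rw [hA]
    exact mul_ne_zero hh (Finset.prod_ne_zero_iff.2 fun i _ => ha i)
  obtain ⟨c, hc⟩ : ∃ c : Fin n → F, eval c A ≠ 0 := by
    by_contra hc
    push Not at hc
    exact hA0 (MvPolynomial.funext fun b => by rw [hc b, map_zero])
  rw [hA, map_mul, map_prod] at hc
  refine h1 c (left_ne_zero_of_mul hc) (fun i => ?_) K hK
  have hai := Finset.prod_ne_zero_iff.1 (right_ne_zero_of_mul hc) i (Finset.mem_univ i)
  obtain ⟨t, y, hty⟩ := Pool.Agent.N230.FC.conic_trdeg htr (eval c (a i)) 0 (eval c (f i)) hai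
  exact ⟨y, t, 1, fun h => one_ne_zero h.2.2, by rw [hty]; ring⟩

end Pool.Agent.Results.MP_9410e4_ag.FibreProductsOverCurves
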